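import Pool.Agent.Helper17.Rg.Goals

/-!
# ZINT: a rational number with denominators dividing a power of two and a power of three is an integer
-/

set_option autoImplicit false

namespace Pool.Agent.Helper69.Rg

open Pool.Agent.Helper17.Rg

theorem zInt : ZInt := by
  intro z a b m n h1 h2
  have hc : IsCoprime ((2 : ℤ) ^ a) ((3 : ℤ) ^ b) := by
    apply IsCoprime.pow
    exact ⟨-1, 1, by norm_num⟩
  obtain ⟨u, v, huv⟩ := hc
  refine ⟨u * m + v * n, ?_⟩
  have h3 : ((u : ℚ) * 2 ^ a + v * 3 ^ b) = 1 := by exact_mod_cast huv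
  push_cast
  calc z = z * (u * 2 ^ a + v * 3 ^ b) := by rw [h3, mul_one]
    _ = u * (z * 2 ^ a) + v * (z * 3 ^ b) := by ring
    _ = u * m + v * n := by rw [h1, h2]

end Pool.Agent.Helper69.Rg
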